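import Pool.Agent.H143PR.Race

/-! The survival sequence of the word `aba` under an i.i.d. source. -/

open MeasureTheory ProbabilityTheory Filter Topology
open scoped ENNReal

namespace H143PR

variable {s : ℕ}

/-- the event `E` depends on the first `n` letters only -/
def Dep (n : ℕ) (E : Set (ℕ → Fin s)) : Prop :=
  ∀ x y : ℕ → Fin s, (∀ i < n, x i = y i) → (x ∈ E → y ∈ E)

theorem real_eval (p : PMF (Fin s)) (n : ℕ) (c : Fin s) :
    (source p).real {x | x n = c} = (p c).toReal := by
  have h := (measurePreserving_eval_infinitePi (fun _ : ℕ => p.toMeasure) n).measure_preimage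
    (measurableSet_singleton c).nullMeasurableSet
  unfold source Measure.real
  have e : {x : ℕ → Fin s | x n = c} = (Function.eval n : (ℕ → Fin s) → Fin s) ⁻¹' ({c} : Set (Fin s)) := by
    ext x; simp [Set.mem_preimage]
  rw [e, h, PMF.toMeasure_apply_singleton _ _ (measurableSet_singleton c)]

theorem real_inter (p : PMF (Fin s)) {n : ℕ} {E : Set (ℕ → Fin s)} (hE : Dep n E) (c : Fin s) :
    (source p).real (E ∩ {x | x n = c}) = (p c).toReal * (source p).real E := by
  have hind : iIndepFun (fun (i : ℕ) (x : ℕ → Fin s) => x i) (source p) := by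
    have := iIndepFun_infinitePi (P := fun _ : ℕ => p.toMeasure) (X := fun (_ : ℕ) (y : Fin s) => y)
      (fun _ => measurable_id)
    exact this
  have hI := hind.indepFun_finset (Finset.range n) {n} (by
    rw [Finset.disjoint_singleton_right]; simp) (fun i => measurable_pi_apply i)
  set E' : Set ((i : Finset.range n) → Fin s) :=
    (fun (x : ℕ → Fin s) (i : Finset.range n) => x i) '' E with hE'
  have e1 : E = (fun (x : ℕ → Fin s) (i : Finset.range n) => x i) ⁻¹' E' := by
    ext x
    constructor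
    · intro hx; exact ⟨x, hx, rfl⟩
    · rintro ⟨y, hy, hyx⟩
      refine hE y x ?_ hy
      intro i hi
      have := congrFun hyx ⟨i, Finset.mem_range.2 hi⟩
      exact this
  set T' : Set ((i : ({n} : Finset ℕ)) → Fin s) := {z | z ⟨n, Finset.mem_singleton_self n⟩ = c}
    with hT'
  have e2 : {x : ℕ → Fin s | x n = c} =
      (fun (x : ℕ → Fin s) (i : ({n} : Finset ℕ)) => x i) ⁻¹' T' := by
    ext x
    simp [hT']
  have key := hI.measure_inter_preimage_eq_mul E' T' (Set.toFinite E').measurableSet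
    (Set.toFinite T').measurableSet
  rw [← real_eval p n c]
  unfold Measure.real
  rw [← ENNReal.toReal_mul, e2]
  conv_lhs => rw [e1]
  conv_rhs => rw [e1]
  rw [key, mul_comm]

variable (a b : Fin s)

theorem occ_iff (x : ℕ → Fin s) (n : ℕ) :
    OccursAt ![a, b, a] x (n + 3) ↔ x n = a ∧ x (n+1) = b ∧ x (n+2) = a := by
  unfold OccursAt
  constructor
  · rintro ⟨_, h⟩
    have h0 := h 0
    have h1 := h 1
    have h2 := h 2
    simp at h0 h1 h2
    exact ⟨h0, h1, h2⟩
  · rintro ⟨h0, h1, h2⟩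
    refine ⟨by omega, ?_⟩
    intro i
    fin_cases i <;> simp [h0, h1, h2]

theorem not_occ (x : ℕ → Fin s) {n : ℕ} (hn : n < 3) : ¬ OccursAt ![a, b, a] x n := by
  rintro ⟨h, _⟩; omega

/-- no occurrence up to time `n` -/
def N0 (n : ℕ) : Set (ℕ → Fin s) := NA ![a, b, a] n

/-- no occurrence up to time `n`, and the last letter is `a` -/
def Q0 : ℕ → Set (ℕ → Fin s)
  | 0 => ∅
  | n + 1 => N0 a b (n + 1) ∩ {x | x n = a}

/-- no occurrence up to time `n`, and the last two letters are `ab` -/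
def R0 : ℕ → Set (ℕ → Fin s)
  | 0 => ∅
  | 1 => ∅
  | n + 2 => N0 a b (n + 2) ∩ {x | x n = a ∧ x (n+1) = b}

theorem N0_succ (n : ℕ) : N0 a b (n+1) = N0 a b n \ (R0 a b n ∩ {x | x n = a}) := by
  ext x
  constructor
  · intro hx
    refine ⟨NA_anti _ (Nat.le_succ n) hx, ?_⟩
    rintro ⟨h1, h2⟩
    match n, h1, h2, hx with
    | 0, h1, _, _ => exact h1
    | 1, h1, _, _ => exact h1
    | m + 2, h1, h2, hx =>
      exact hx (m + 3) (by omega) ((occ_iff a b x m).2 ⟨h1.2.1, h1.2.2, h2⟩)
  · rintro ⟨h1, h2⟩ m hm hocc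
    by_cases hmn : m ≤ n
    · exact h1 m hmn hocc
    · have hm' : m = n + 1 := by omega
      subst hm'
      match n, h1, h2, hocc with
      | 0, _, _, hocc => exact not_occ a b x (by norm_num) hocc
      | 1, _, _, hocc => exact not_occ a b x (by norm_num) hocc
      | j + 2, h1, h2, hocc =>
        rw [occ_iff] at hocc
        exact h2 ⟨⟨h1, hocc.1, hocc.2.1⟩, hocc.2.2⟩

theorem Q0_succ (n : ℕ) : Q0 a b (n+1) = (N0 a b n \ R0 a b n) ∩ {x | x n = a} := by
  show N0 a b (n + 1) ∩ {x | x n = a} = _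
  rw [N0_succ]
  ext x
  simp only [Set.mem_inter_iff, Set.mem_sdiff, Set.mem_ofPred_eq]
  tauto

theorem R0_sub_N0 (n : ℕ) : R0 a b n ⊆ N0 a b n := by
  match n with
  | 0 => exact Set.empty_subset _
  | 1 => exact Set.empty_subset _
  | n + 2 => exact Set.inter_subset_left

theorem R0_succ (hab : a ≠ b) (n : ℕ) : R0 a b (n+1) = Q0 a b n ∩ {x | x n = b} := by
  match n with
  | 0 => 
    show (∅ : Set (ℕ → Fin s)) = ∅ ∩ _
    rw [Set.empty_inter]
  | n + 1 =>
    show N0 a b (n + 2) ∩ {x | x n = a ∧ x (n+1) = b} = (N0 a b (n + 1) ∩ {x | x n = a}) ∩ _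
    rw [N0_succ]
    ext x
    simp only [Set.mem_inter_iff, Set.mem_sdiff, Set.mem_ofPred_eq]
    constructor
    · rintro ⟨⟨h1, _⟩, h2, h3⟩
      exact ⟨⟨h1, h2⟩, h3⟩
    · rintro ⟨⟨h1, h2⟩, h3⟩
      refine ⟨⟨h1, ?_⟩, h2, h3⟩
      rintro ⟨_, h4⟩
      exact hab (h4.symm.trans h3)

theorem dep_NA {k : ℕ} (A : Fin k → Fin s) (n : ℕ) : Dep n (NA A n) := by
  intro x y hxy hx m hm hocc
  refine hx m hm ⟨hocc.1, fun i => ?_⟩
  have hi := i.2
  have := hocc.1
  rw [hxy _ (by omega)]
  exact hocc.2 i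

theorem dep_Q0 (n : ℕ) : Dep n (Q0 a b n) := by
  match n with
  | 0 => intro x y _ hx; exact hx
  | n + 1 =>
    intro x y hxy hx
    refine ⟨dep_NA _ _ x y hxy hx.1, ?_⟩
    rw [Set.mem_ofPred_eq, ← hxy n (by omega)]
    exact hx.2

theorem dep_R0 (n : ℕ) : Dep n (R0 a b n) := by
  match n with
  | 0 => intro x y _ hx; exact hx
  | 1 => intro x y _ hx; exact hx
  | n + 2 =>
    intro x y hxy hx
    refine ⟨dep_NA _ _ x y hxy hx.1, ?_⟩
    rw [Set.mem_ofPred_eq, ← hxy n (by omega), ← hxy (n+1) (by omega)]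
    exact hx.2

theorem dep_diff {n : ℕ} {E F : Set (ℕ → Fin s)} (hE : Dep n E) (hF : Dep n F) :
    Dep n (E \ F) := by
  intro x y hxy hx
  exact ⟨hE x y hxy hx.1, fun hy => hx.2 (hF y x (fun i hi => (hxy i hi).symm) hy)⟩

theorem measurableSet_letter (n : ℕ) (c : Fin s) : MeasurableSet {x : ℕ → Fin s | x n = c} := by
  have hm : Measurable (fun x : ℕ → Fin s => x n) := measurable_pi_apply _
  exact hm (measurableSet_singleton c)

theorem measurableSet_R0 (n : ℕ) : MeasurableSet (R0 a b n) := by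
  match n with
  | 0 => exact MeasurableSet.empty
  | 1 => exact MeasurableSet.empty
  | n + 2 =>
    exact (measurableSet_NA _ _).inter ((measurableSet_letter n a).inter (measurableSet_letter (n+1) b))

theorem U_succ (p : PMF (Fin s)) (n : ℕ) :
    U p ![a, b, a] (n+1) = U p ![a, b, a] n - (p a).toReal * (source p).real (R0 a b n) := by
  show (source p).real (N0 a b (n+1)) = (source p).real (N0 a b n) - _
  rw [N0_succ, measureReal_sdiff (Set.inter_subset_left.trans (R0_sub_N0 a b n))
    ((measurableSet_R0 a b n).inter (measurableSet_letter n a)), real_inter p (dep_R0 a b n)]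

theorem Q_succ (p : PMF (Fin s)) (n : ℕ) :
    (source p).real (Q0 a b (n+1)) =
      (p a).toReal * (U p ![a, b, a] n - (source p).real (R0 a b n)) := by
  have hd : Dep n (N0 a b n \ R0 a b n) := dep_diff (dep_NA _ n) (dep_R0 a b n)
  rw [Q0_succ, real_inter p hd, measureReal_sdiff (R0_sub_N0 a b n) (measurableSet_R0 a b n)]
  rfl

theorem R_succ (hab : a ≠ b) (p : PMF (Fin s)) (n : ℕ) :
    (source p).real (R0 a b (n+1)) = (p b).toReal * (source p).real (Q0 a b n) := by
  rw [R0_succ a b hab, real_inter p (dep_Q0 a b n)]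

theorem U_zero {k : ℕ} (p : PMF (Fin s)) (A : Fin (k+1) → Fin s) : U p A 0 = 1 := by
  unfold U
  have : NA A 0 = Set.univ := by
    ext x
    simp only [Set.mem_univ, iff_true]
    rintro m hm ⟨h, _⟩
    omega
  rw [this, probReal_univ]

/-- the survival sequence of `aba` -/
theorem surv_aba (hab : a ≠ b) (p : PMF (Fin s)) :
    Surv ((p a).toReal * (p b).toReal)
      ((p a).toReal * (p b).toReal - (p a).toReal ^ 2 * (p b).toReal) (U p ![a, b, a]) := by
  have r0 : (source p).real (R0 a b 0) = 0 := by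
    show (source p).real ∅ = 0
    simp
  have r1 : (source p).real (R0 a b 1) = 0 := by
    show (source p).real ∅ = 0
    simp
  have u0 : U p ![a, b, a] 0 = 1 := U_zero p _
  have u1 : U p ![a, b, a] 1 = 1 := by
    rw [U_succ, r0, u0]; ring
  have u2 : U p ![a, b, a] 2 = 1 := by
    rw [U_succ a b p 1, r1, u1]; ring
  refine ⟨u0, u1, u2, ?_⟩
  intro n
  have e3 := U_succ a b p (n+2)
  have eR2 := R_succ a b hab p (n+1)
  have eQ1 := Q_succ a b p n
  have e1 := U_succ a b p n
  have h3 : U p ![a, b, a] (n+3) = U p ![a, b, a] (n+2)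
      - (p a).toReal * (source p).real (R0 a b (n+2)) := e3
  have h2 : (source p).real (R0 a b (n+2)) = (p b).toReal * (source p).real (Q0 a b (n+1)) := eR2
  rw [h3, h2, eQ1, e1]
  ring

theorem U_anti {k : ℕ} (p : PMF (Fin s)) (A : Fin k → Fin s) : Antitone (U p A) := by
  intro m n h
  exact measureReal_mono (NA_anti A h)

/-- the survival sequence tends to zero -/
theorem U_tendsto (hab : a ≠ b) (p : PMF (Fin s)) (ha : 0 < (p a).toReal) (hb : 0 < (p b).toReal) :
    Tendsto (U p ![a, b, a]) atTop (𝓝 0) := by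
  have hbdd : BddBelow (Set.range (U p ![a, b, a])) := ⟨0, by
    rintro _ ⟨n, rfl⟩; exact measureReal_nonneg⟩
  have hlim := tendsto_atTop_ciInf (U_anti p ![a, b, a]) hbdd
  set L := ⨅ i, U p ![a, b, a] i with hL
  have hs := surv_aba a b hab p
  have l3 := (tendsto_add_atTop_iff_nat 3).2 hlim
  have l2 := (tendsto_add_atTop_iff_nat 2).2 hlim
  have l1 := (tendsto_add_atTop_iff_nat 1).2 hlim
  have hr := (l2.sub (l1.const_mul ((p a).toReal * (p b).toReal))).add
    (hlim.const_mul ((p a).toReal * (p b).toReal - (p a).toReal ^ 2 * (p b).toReal))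
  have heq : (fun n => U p ![a, b, a] (n+3)) = (fun n => U p ![a, b, a] (n+2)
      - (p a).toReal * (p b).toReal * U p ![a, b, a] (n+1)
      + ((p a).toReal * (p b).toReal - (p a).toReal ^ 2 * (p b).toReal) * U p ![a, b, a] n) := by
    funext n; exact hs.hrec n
  rw [heq] at l3
  have huniq := tendsto_nhds_unique l3 hr
  have hz : (p a).toReal ^ 2 * (p b).toReal * L = 0 := by linarith
  have hx : (p a).toReal ^ 2 * (p b).toReal ≠ 0 := by positivity
  have hL0 : L = 0 := by
    rcases mul_eq_zero.1 hz with h | h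
    · exact absurd h hx
    · exact h
  rw [hL0] at hlim
  exact hlim

end H143PR
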