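import Mathlib

/-! Algebra for races of the words `aba`. -/

namespace H143PR

/-- the common denominator -/
noncomputable def DD (y w Y W : ℝ) : ℝ := y^3*W^2 - y^2*w*W^2 + y^2*Y^2 - y^2*Y*W - 2*y^2*W + y*w^2*Y*W^2 - y*w*Y^2 + 2*y*w*Y*W - 3*y*w*W^2 + 2*y*w*W - 3*y*Y + 4*y*W + y - w^3*W^3 + w^2*Y^3 - w^2*Y^2*W - 3*w^2*Y*W + 5*w^2*W^2 - 2*w*Y^2 + 2*w*Y*W + 4*w*Y - 5*w*W - w + Y - W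

/-- the numerator of the head-to-head excess -/
noncomputable def NN (y w Y W : ℝ) : ℝ := y^3*W^2 - y^2*w*W^2 - y^2*Y*W + y^2*W^2 - 2*y^2*W + y*w^2*W^3 + y*w*Y^2 - 3*y*w*W^2 + 2*y*w*W + y*W + y - w^3*Y*W^2 - w^2*Y^3 + w^2*Y^2*W - w^2*Y^2 + 3*w^2*Y*W + 2*w*Y^2 - 2*w*Y*W - w*Y - w - Y + W

noncomputable def b00 (y w Y W : ℝ) : ℝ := -y^2*W + y*w*W^2 + y*w*W - y*W + y - w^2*Y*W + w*Y^2 - w*Y*W + w*Y - w - Y + W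

noncomputable def b01 (y w Y W : ℝ) : ℝ := y^3*W^2 - y^2*w*W^2 + y^2*Y^2 - y^2*Y*W + y^2*W^2 - y^2*W + y*w^2*Y*W^2 - y*w*Y^2 + 2*y*w*Y*W - 4*y*w*W^2 + y*w*W + y*Y^2 - y*Y*W - 2*y*Y + 2*y*W - w^3*W^3 + w^2*Y^3 - w^2*Y^2*W - 2*w^2*Y*W + 4*w^2*W^2 - 3*w*Y^2 + 4*w*Y*W + 2*w*Y - w*W^2 - 2*w*W

noncomputable def b02 (y w Y W : ℝ) : ℝ := -y^2*Y*W + y*w*Y*W - y*w*W^2 - y*Y*W + y*W^2 + 2*y*W - w^2*Y^2*W + w^2*W^3 + w^2*W^2 + 3*w*Y*W - 3*w*W^2 - 2*w*W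

noncomputable def b10 (y w Y W : ℝ) : ℝ := -y^3*W^2 + y^2*w*W^2 - y^2*Y^2 + y^2*Y*W - y^2*Y + 3*y^2*W - y*w^2*Y*W^2 + y*w*Y^2 - 2*y*w*Y*W + y*w*Y + 2*y*w*W^2 - 4*y*w*W + 2*y*Y - 2*y*W + w^3*W^3 - w^2*Y^3 + w^2*Y^2*W - w^2*Y^2 + 4*w^2*Y*W - 4*w^2*W^2 + w^2*W + w*Y^2 - w*Y*W - 2*w*Y + 2*w*W

noncomputable def b11 (y w Y W : ℝ) : ℝ := y^2*Y - y^2*W^2 - 2*y^2*W - y*w*Y + 2*y*w*W^2 + 3*y*w*W - y*Y^2 + y*Y*W + w^2*Y^2 - 2*w^2*Y*W - w^2*W + 2*w*Y^2 - 3*w*Y*W + w*W^2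

noncomputable def b12 (y w Y W : ℝ) : ℝ := y^3*W^2 - y^2*w*W^2 + y^2*W^2 - y^2*W + y*w^2*Y*W^2 - 3*y*w*W^2 + y*w*W + y*Y*W - y*W^2 - w^3*W^3 + w^2*Y*W^2 - w^2*Y*W - w^2*W^3 + 3*w^2*W^2 - 2*w*Y*W + 2*w*W^2

noncomputable def b20 (y w Y W : ℝ) : ℝ := y^2*w*W^2 + y*w*Y^2 - y*w*Y*W + y*w*Y - 3*y*w*W - w^3*W^2 + w^2*Y*W - w^2*Y - w^2*W^2 + 3*w^2*W - 2*w*Y + 2*w*W

noncomputable def b21 (y w Y W : ℝ) : ℝ := -y*w^2*Y*W^2 - y*w^2*W^2 - y*w*Y + y*w*W^2 + 2*y*w*W + w^3*W^3 + w^3*W^2 - w^2*Y^3 + w^2*Y^2*W - w^2*Y^2 + 3*w^2*Y*W + w^2*Y - 3*w^2*W^2 - 2*w^2*W + w*Y^2 - w*Y*W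

noncomputable def b22 (y w Y W : ℝ) : ℝ := -y^2*w*W^2 + y*w^2*W^3 + y*w^2*W^2 - y*w*W^2 + y*w*W - w^3*Y*W^2 + w^2*Y^2*W - w^2*Y*W^2 + w^2*Y*W - w^2*W - w*Y*W + w*W^2


/-- The bilinear form -/
noncomputable def beta (y w Y W u0 u1 u2 v0 v1 v2 : ℝ) : ℝ :=
  u0 * (b00 y w Y W * v0 + b01 y w Y W * v1 + b02 y w Y W * v2)
  + u1 * (b10 y w Y W * v0 + b11 y w Y W * v1 + b12 y w Y W * v2)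
  + u2 * (b20 y w Y W * v0 + b21 y w Y W * v1 + b22 y w Y W * v2)

theorem beta_one (y w Y W : ℝ) : beta y w Y W 1 1 1 1 1 1 = NN y w Y W := by
  unfold beta b00 b01 b02 b10 b11 b12 b20 b21 b22 NN
  ring

theorem beta_step (y w Y W u0 u1 u2 v0 v1 v2 : ℝ) :
    beta y w Y W u0 u1 u2 v0 v1 v2
      - beta y w Y W (u0 - y * u1 + w * u2) u0 u1 (v0 - Y * v1 + W * v2) v0 v1
    = DD y w Y W * (u0 * (v0 - Y * v1 + W * v2) - (u0 - y * u1 + w * u2) * v0) := by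
  unfold beta b00 b01 b02 b10 b11 b12 b20 b21 b22 DD
  ring

end H143PR
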