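import Pool.Agent.H143PR.Alg

/-! The curve of near-ties through the uniform point. -/

open Filter Topology

namespace H143PR

/-- `y`-coordinate of the curve -/
noncomputable def yt (t : ℝ) : ℝ := 1/49 + t
/-- `x`-coordinate of the curve -/
noncomputable def xt (t : ℝ) : ℝ := 1/343 + (13752021718/4840436564033) * t + (-1017510026461978319142097323/330643111051479730657427091352065959) * t^2
/-- `w`-coordinate of the curve -/
noncomputable def wt (t : ℝ) : ℝ := yt t - xt t

noncomputable def F (t : ℝ) : ℝ := (-592859078087287194219500041023017688405/11203199030654443380706464775794823512285601368529) + (105622396033056158647136734360913833518275169284807978096970/109324866885801157598677700149217808669106659466659819654940977486589681) * t^1 + (9542110404263518502712732644444256706284684595084959109706052/75597154718867493754485345150636928740974891340628207109974563533800366262079077639) * t^2 + (6578612000326193014827743668788942778620029260275513548579737614863207364012/36147514102410191177268197939713965182887041867310405233628406446093354054031794937955119817661576680769079) * t^3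

noncomputable def H (t : ℝ) : ℝ := (-83895872117039239595853609825556232676612/228636714911315171034825811750914765556849007521) + (-27168678310434722044192137524411688932260624418215490770730501357347073620416/75597154718867493754485345150636928740974891340628207109974563533800366262079077639) * t^2 + (152100862399878431055575131253728122396700920236398616208975506745048736169306932186654552917775165133281166292/24995678422886399695151246750090113614954277912480484887447592046204757619036316074287303227051803956781033951809990801) * t^4 + (-957967599070530597863339185115413240496763176638713362480369324913463046913080671052459558348000161240558821083230941148271796330/8264648876585503587604113679886704257705633908973982158108609888166311598081981650300468406322699932572765108647753370048666226372749438293734088135243159) * t^6 + (2181340600329509682312126080980031709742539123668924066652283623608411400381453645774006983047169365197782030466846341659065511726765686/3951822167498614263718702428178417710015933632452412655366625447978296828442790910778681907087747466752775961313488749244801666595460343433172795547711617992743474702647985273799) * t^8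

theorem NN_F (t : ℝ) : NN (yt 0) (wt 0) (yt t) (wt t) = t^3 * F t := by
  unfold NN wt yt xt F
  ring

theorem NN_H (t : ℝ) : NN (yt t) (wt t) (yt (-t)) (wt (-t)) = t^3 * H t := by
  unfold NN wt yt xt H
  ring

theorem NN_anti (y w Y W : ℝ) : NN Y W y w = - NN y w Y W := by
  unfold NN
  ring

theorem F_zero : F 0 < 0 := by
  unfold F; norm_num

theorem H_zero : H 0 < 0 := by
  unfold H; norm_num

theorem DD_zero : 0 < DD (yt 0) (wt 0) (yt 0) (wt 0) := by
  unfold DD wt yt xt; norm_num

end H143PR
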