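import Pool.Agent.H143PR.Aba

/-! The near-uniform probability vectors and the cycle. -/

open MeasureTheory ProbabilityTheory Filter Topology
open scoped ENNReal

namespace H143PR

theorem continuous_yt : Continuous yt := by unfold yt; fun_prop
theorem continuous_xt : Continuous xt := by unfold xt; fun_prop
theorem continuous_wt : Continuous wt := by
  unfold wt; exact continuous_yt.sub continuous_xt
theorem continuous_F : Continuous F := by unfold F; fun_prop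
theorem continuous_H : Continuous H := by unfold H; fun_prop

theorem yt_zero : yt 0 = 1/49 := by unfold yt; ring
theorem xt_zero : xt 0 = 1/343 := by unfold xt; ring

/-- the probability vector -/
noncomputable def q (t : ℝ) : Fin 7 → ℝ :=
  ![1/7, 1/7, xt t / yt t, yt t ^ 2 / xt t, xt (-t) / yt (-t), yt (-t) ^ 2 / xt (-t),
    1 - (1/7 + 1/7 + xt t / yt t + yt t ^ 2 / xt t + xt (-t) / yt (-t) + yt (-t) ^ 2 / xt (-t))]

theorem q_sum (t : ℝ) : ∑ i, q t i = 1 := by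
  simp only [Fin.sum_univ_succ, q]
  simp
  ring

theorem tendsto_neg0 : Tendsto (fun t : ℝ => -t) (𝓝 0) (𝓝 0) := by
  have : Continuous (fun t : ℝ => -t) := continuous_neg
  have h := this.tendsto 0
  simpa using h

theorem tend_xt : Tendsto xt (𝓝 0) (𝓝 (1/343)) := by
  rw [← xt_zero]; exact continuous_xt.tendsto 0
theorem tend_yt : Tendsto yt (𝓝 0) (𝓝 (1/49)) := by
  rw [← yt_zero]; exact continuous_yt.tendsto 0

theorem tend_q2 : Tendsto (fun t => xt t / yt t) (𝓝 0) (𝓝 (1/7)) := by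
  have h := tend_xt.div tend_yt (by norm_num)
  have e : (1/343 : ℝ) / (1/49) = 1/7 := by norm_num
  rw [e] at h
  exact h

theorem tend_q3 : Tendsto (fun t => yt t ^ 2 / xt t) (𝓝 0) (𝓝 (1/7)) := by
  have h := (tend_yt.pow 2).div tend_xt (by norm_num)
  have e : (1/49 : ℝ) ^ 2 / (1/343) = 1/7 := by norm_num
  rw [e] at h
  exact h

theorem tend_q (i : Fin 7) : Tendsto (fun t => q t i) (𝓝 0) (𝓝 (1/7)) := by
  have a2 := tend_q2
  have a3 := tend_q3
  have a4 := tend_q2.comp tendsto_neg0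
  have a5 := tend_q3.comp tendsto_neg0
  fin_cases i
  · exact tendsto_const_nhds
  · exact tendsto_const_nhds
  · exact a2
  · exact a3
  · exact a4
  · exact a5
  · have h := (tendsto_const_nhds (x := (1:ℝ)) (f := 𝓝 (0:ℝ))).sub
      ((((((tendsto_const_nhds (x := (1/7:ℝ)) (f := 𝓝 (0:ℝ))).add
      (tendsto_const_nhds (x := (1/7:ℝ)) (f := 𝓝 (0:ℝ)))).add a2).add a3).add a4).add a5)
    have e : (1:ℝ) - (1/7 + 1/7 + 1/7 + 1/7 + 1/7 + 1/7) = 1/7 := by norm_num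
    rw [e] at h
    exact h

theorem exists_t (ε : ℝ) (hε : 0 < ε) : ∃ t : ℝ, 0 < t ∧ (∀ i, |q t i - 1/7| < ε) ∧
    (∀ i, 0 < q t i) ∧ 0 < xt t ∧ 0 < yt t ∧ 0 < xt (-t) ∧ 0 < yt (-t) ∧
    F t < 0 ∧ F (-t) < 0 ∧ H t < 0 ∧
    0 < DD (yt t) (wt t) (yt 0) (wt 0) ∧ 0 < DD (yt 0) (wt 0) (yt (-t)) (wt (-t)) ∧
    0 < DD (yt (-t)) (wt (-t)) (yt t) (wt t) := by
  have E1 : ∀ᶠ t in 𝓝 (0:ℝ), ∀ i, |q t i - 1/7| < ε := by
    rw [eventually_all]
    intro i
    have := (tend_q i).eventually (Metric.ball_mem_nhds _ hε)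
    filter_upwards [this] with t ht
    rw [← Real.dist_eq]
    exact ht
  have E2 : ∀ᶠ t in 𝓝 (0:ℝ), ∀ i, 0 < q t i := by
    rw [eventually_all]
    intro i
    exact (tend_q i).eventually (lt_mem_nhds (by norm_num))
  have E3 : ∀ᶠ t in 𝓝 (0:ℝ), 0 < xt t := tend_xt.eventually (lt_mem_nhds (by norm_num))
  have E4 : ∀ᶠ t in 𝓝 (0:ℝ), 0 < yt t := tend_yt.eventually (lt_mem_nhds (by norm_num))
  have E5 : ∀ᶠ t in 𝓝 (0:ℝ), 0 < xt (-t) := tendsto_neg0.eventually E3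
  have E6 : ∀ᶠ t in 𝓝 (0:ℝ), 0 < yt (-t) := tendsto_neg0.eventually E4
  have E7 : ∀ᶠ t in 𝓝 (0:ℝ), F t < 0 := (continuous_F.tendsto 0).eventually (gt_mem_nhds F_zero)
  have E8 : ∀ᶠ t in 𝓝 (0:ℝ), F (-t) < 0 := tendsto_neg0.eventually E7
  have E9 : ∀ᶠ t in 𝓝 (0:ℝ), H t < 0 := (continuous_H.tendsto 0).eventually (gt_mem_nhds H_zero)
  have cy := continuous_yt
  have cw := continuous_wt
  have E10 : ∀ᶠ t in 𝓝 (0:ℝ), 0 < DD (yt t) (wt t) (yt 0) (wt 0) := by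
    have c : Continuous (fun t => DD (yt t) (wt t) (yt 0) (wt 0)) := by unfold DD; fun_prop
    exact (c.tendsto 0).eventually (lt_mem_nhds DD_zero)
  have E11 : ∀ᶠ t in 𝓝 (0:ℝ), 0 < DD (yt 0) (wt 0) (yt (-t)) (wt (-t)) := by
    have c : Continuous (fun t => DD (yt 0) (wt 0) (yt (-t)) (wt (-t))) := by unfold DD; fun_prop
    exact (c.tendsto 0).eventually (lt_mem_nhds (by simpa using DD_zero))
  have E12 : ∀ᶠ t in 𝓝 (0:ℝ), 0 < DD (yt (-t)) (wt (-t)) (yt t) (wt t) := by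
    have c : Continuous (fun t => DD (yt (-t)) (wt (-t)) (yt t) (wt t)) := by unfold DD; fun_prop
    exact (c.tendsto 0).eventually (lt_mem_nhds (by simpa using DD_zero))
  have hall := ((((((((((E1.and E2).and E3).and E4).and E5).and E6).and E7).and E8).and E9).and
    E10).and E11).and E12
  have hr : ∀ᶠ t in 𝓝[>] (0:ℝ), t ∈ Set.Ioi (0:ℝ) := eventually_mem_nhdsWithin
  obtain ⟨t, ⟨⟨⟨⟨⟨⟨⟨⟨⟨⟨⟨⟨h1, h2⟩, h3⟩, h4⟩, h5⟩, h6⟩, h7⟩, h8⟩, h9⟩, h10⟩, h11⟩, h12⟩, h13⟩⟩ :=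
    ((hall.filter_mono nhdsWithin_le_nhds).and hr).exists
  exact ⟨t, h13, h1, h2, h3, h4, h5, h6, h7, h8, h9, h10, h11, h12⟩

/-- the PMF of a positive vector with sum one -/
noncomputable def mkPMF {s : ℕ} (v : Fin s → ℝ) (h0 : ∀ i, 0 < v i) (h1 : ∑ i, v i = 1) :
    PMF (Fin s) :=
  PMF.ofFintype (fun i => ENNReal.ofReal (v i)) (by
    rw [← ENNReal.ofReal_sum_of_nonneg (fun i _ => (h0 i).le), h1, ENNReal.ofReal_one])

theorem mkPMF_toReal {s : ℕ} (v : Fin s → ℝ) (h0 : ∀ i, 0 < v i) (h1 : ∑ i, v i = 1) (i : Fin s) :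
    (mkPMF v h0 h1 i).toReal = v i := by
  unfold mkPMF
  rw [PMF.ofFintype_apply, ENNReal.toReal_ofReal (h0 i).le]

theorem beats {s : ℕ} (p : PMF (Fin s)) (a b c d : Fin s) (hab : a ≠ b) (hcd : c ≠ d)
    (hpos : ∀ i, 0 < (p i).toReal) {y w Y W : ℝ}
    (hy : (p a).toReal * (p b).toReal = y)
    (hw : (p a).toReal * (p b).toReal - (p a).toReal ^ 2 * (p b).toReal = w)
    (hY : (p c).toReal * (p d).toReal = Y)
    (hW : (p c).toReal * (p d).toReal - (p c).toReal ^ 2 * (p d).toReal = W)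
    (hD : 0 < DD y w Y W) (hN : 0 < NN y w Y W) :
    1/2 < winProb p ![a, b, a] ![c, d, c] := by
  have hA := surv_aba a b hab p
  have hB := surv_aba c d hcd p
  rw [hw, hy] at hA
  rw [hW, hY] at hB
  exact win_of_NN p _ _ hA hB (U_tendsto a b hab p (hpos a) (hpos b))
    (U_tendsto c d hcd p (hpos c) (hpos d)) hD hN

theorem main (ε : ℝ) (hε : 0 < ε) : ∃ p : PMF (Fin 7),
    (∀ i, |(p i).toReal - 1/7| < ε) ∧
    1/2 < winProb p ![2, 3, 2] ![0, 1, 0] ∧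
    1/2 < winProb p ![0, 1, 0] ![4, 5, 4] ∧
    1/2 < winProb p ![4, 5, 4] ![2, 3, 2] := by
  obtain ⟨t, ht, h1, h2, hx, hy, hx', hy', hF, hF', hH, hD1, hD2, hD3⟩ := exists_t ε hε
  set p := mkPMF (q t) h2 (q_sum t) with hp
  have hpi : ∀ i, (p i).toReal = q t i := mkPMF_toReal (q t) h2 (q_sum t)
  have hpos : ∀ i, 0 < (p i).toReal := fun i => by rw [hpi]; exact h2 i
  have p0 : (p 0).toReal = 1/7 := hpi 0
  have p1 : (p 1).toReal = 1/7 := hpi 1
  have p2 : (p 2).toReal = xt t / yt t := hpi 2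
  have p3 : (p 3).toReal = yt t ^ 2 / xt t := hpi 3
  have p4 : (p 4).toReal = xt (-t) / yt (-t) := hpi 4
  have p5 : (p 5).toReal = yt (-t) ^ 2 / xt (-t) := hpi 5
  have y0 : (p 0).toReal * (p 1).toReal = yt 0 := by rw [p0, p1, yt_zero]; norm_num
  have w0 : (p 0).toReal * (p 1).toReal - (p 0).toReal ^ 2 * (p 1).toReal = wt 0 := by
    rw [p0, p1]; unfold wt; rw [yt_zero, xt_zero]; norm_num
  have y2 : (p 2).toReal * (p 3).toReal = yt t := by rw [p2, p3]; field_simp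
  have w2 : (p 2).toReal * (p 3).toReal - (p 2).toReal ^ 2 * (p 3).toReal = wt t := by
    rw [p2, p3]; unfold wt; field_simp
  have y4 : (p 4).toReal * (p 5).toReal = yt (-t) := by rw [p4, p5]; field_simp
  have w4 : (p 4).toReal * (p 5).toReal - (p 4).toReal ^ 2 * (p 5).toReal = wt (-t) := by
    rw [p4, p5]; unfold wt; field_simp
  have ht3 : 0 < t ^ 3 := by positivity
  refine ⟨p, fun i => by rw [hpi]; exact h1 i, ?_, ?_, ?_⟩
  · refine beats p 2 3 0 1 (by decide) (by decide) hpos y2 w2 y0 w0 hD1 ?_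
    rw [NN_anti, NN_F]
    have := mul_neg_of_pos_of_neg ht3 hF
    linarith
  · refine beats p 0 1 4 5 (by decide) (by decide) hpos y0 w0 y4 w4 hD2 ?_
    rw [NN_F]
    have := mul_neg_of_pos_of_neg ht3 hF'
    have e : (-t)^3 = - t^3 := by ring
    rw [e]
    linarith
  · refine beats p 4 5 2 3 (by decide) (by decide) hpos y4 w4 y2 w2 hD3 ?_
    rw [NN_anti, NN_H]
    have := mul_neg_of_pos_of_neg ht3 hH
    linarith

end H143PR
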