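import Pool.Agent.H143PR.Curve

/-! Pattern races: lower bound for the winning probability in terms of the survival sequences. -/

open MeasureTheory ProbabilityTheory Filter Topology
open scoped ENNReal

namespace H143PR

variable {s k : ℕ}

/-- The word `A` occurs in the sequence `x` ending at its `n`-th letter (the letters of the
sequence are `X_1 = x 0`, `X_2 = x 1`, ...): `k ≤ n` and `X_{n-k+1} ⋯ X_n = A`. -/
def OccursAt (A : Fin k → Fin s) (x : ℕ → Fin s) (n : ℕ) : Prop :=
  k ≤ n ∧ ∀ i : Fin k, x (n - k + i) = A i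

/-- The waiting time `τ_A`: the first `n` at which `A` occurs (`⊤` if it never does). -/
noncomputable def tau (A : Fin k → Fin s) (x : ℕ → Fin s) : ℕ∞ :=
  sInf ((fun n : ℕ => (n : ℕ∞)) '' {n | OccursAt A x n})

/-- The law of the i.i.d. source with letter distribution `p`. -/
noncomputable def source (p : PMF (Fin s)) : Measure (ℕ → Fin s) :=
  Measure.infinitePi (fun _ => p.toMeasure)

/-- `Pr(A > B)` for two independent copies of the source, ties broken by a fair coin. -/
noncomputable def winProb (p : PMF (Fin s)) (A B : Fin k → Fin s) : ℝ :=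
  ((source p).prod (source p)).real {z | tau A z.1 < tau B z.2}
    + (1 / 2) * ((source p).prod (source p)).real {z | tau A z.1 = tau B z.2}

instance (p : PMF (Fin s)) : IsProbabilityMeasure (source p) := by
  unfold source; infer_instance

/-- the event `τ_A > n` -/
def NA (A : Fin k → Fin s) (n : ℕ) : Set (ℕ → Fin s) := {x | ∀ m ≤ n, ¬ OccursAt A x m}

theorem lt_tau_iff (A : Fin k → Fin s) (x : ℕ → Fin s) (n : ℕ) :
    (n : ℕ∞) < tau A x ↔ x ∈ NA A n := by
  unfold NA tau
  rw [Set.mem_ofPred_eq]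
  constructor
  · intro h m hm hocc
    have h1 : sInf ((fun n : ℕ => (n : ℕ∞)) '' {n | OccursAt A x n}) ≤ (m : ℕ∞) :=
      sInf_le ⟨m, hocc, rfl⟩
    have h2 : (n : ℕ∞) < (m : ℕ∞) := lt_of_lt_of_le h h1
    have h3 : n < m := by exact_mod_cast h2
    omega
  · intro h
    by_cases hne : {n | OccursAt A x n}.Nonempty
    · have hmem := csInf_mem (hne.image (fun n : ℕ => (n : ℕ∞)))
      obtain ⟨m, hm, hm'⟩ := hmem
      rw [← hm']
      have : n < m := by
        by_contra hcon
        exact h m (by omega) hm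
      show ((n : ℕ) : ℕ∞) < ((m : ℕ) : ℕ∞)
      exact_mod_cast this
    · rw [Set.not_nonempty_iff_eq_empty] at hne
      rw [hne, Set.image_empty, sInf_empty]
      exact ENat.natCast_lt_top n

theorem measurableSet_occursAt (A : Fin k → Fin s) (n : ℕ) :
    MeasurableSet {x : ℕ → Fin s | OccursAt A x n} := by
  unfold OccursAt
  by_cases h : k ≤ n
  · simp only [h, true_and]
    rw [Set.ofPred_forall]
    refine MeasurableSet.iInter fun i => ?_
    have hm : Measurable (fun x : ℕ → Fin s => x (n - k + i)) := measurable_pi_apply _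
    exact hm (measurableSet_singleton (A i))
  · simp [h]

theorem measurableSet_NA (A : Fin k → Fin s) (n : ℕ) : MeasurableSet (NA A n) := by
  have : NA A n = ⋂ m ∈ Finset.range (n + 1), {x : ℕ → Fin s | OccursAt A x m}ᶜ := by
    ext x
    simp only [NA, Set.mem_ofPred_eq, Finset.mem_range, Set.mem_iInter, Set.mem_compl_iff]
    constructor
    · intro h m hm; exact h m (by omega)
    · intro h m hm; exact h m (by omega)
  rw [this]
  exact Finset.measurableSet_biInter _ fun m _ => (measurableSet_occursAt A m).compl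

theorem NA_anti (A : Fin k → Fin s) {m n : ℕ} (h : m ≤ n) : NA A n ⊆ NA A m := by
  intro x hx i hi
  exact hx i (by omega)

/-- the survival probability `P(τ_A > n)` -/
noncomputable def U (p : PMF (Fin s)) (A : Fin k → Fin s) (n : ℕ) : ℝ := (source p).real (NA A n)

theorem real_diff (p : PMF (Fin s)) (A : Fin k → Fin s) (n : ℕ) :
    (source p).real (NA A n \ NA A (n+1)) = U p A n - U p A (n+1) := by
  unfold U
  rw [measureReal_sdiff (NA_anti A (by omega)) (measurableSet_NA A (n+1))]

theorem tau_eq_of_mem_diff (A : Fin k → Fin s) (n : ℕ) {x : ℕ → Fin s}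
    (hx : x ∈ NA A n \ NA A (n+1)) : tau A x = (n + 1 : ℕ) := by
  have h1 : (n : ℕ∞) < tau A x := (lt_tau_iff A x n).2 hx.1
  have h2 : ¬ ((n + 1 : ℕ) : ℕ∞) < tau A x := fun h => hx.2 ((lt_tau_iff A x (n+1)).1 h)
  rw [not_lt] at h2
  apply le_antisymm h2
  push_cast
  exact Order.add_one_le_of_lt h1

theorem pairwise_disj (A : Fin k → Fin s) (S : ℕ → Set (ℕ → Fin s)) (T : Set ℕ) :
    T.PairwiseDisjoint (fun n => (NA A n \ NA A (n+1)) ×ˢ S n) := by
  intro m _ n _ hmn
  refine Set.disjoint_left.2 ?_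
  rintro z ⟨h1, _⟩ ⟨h2, _⟩
  have e1 := tau_eq_of_mem_diff A m h1
  have e2 := tau_eq_of_mem_diff A n h2
  rw [e1] at e2
  have : m + 1 = n + 1 := by exact_mod_cast e2
  omega

theorem win_lower (p : PMF (Fin s)) (A B : Fin k → Fin s) (M : ℕ) :
    ∑ n ∈ Finset.range M, (1/2) * ((U p A n - U p A (n+1)) * (U p B n + U p B (n+1)))
      ≤ winProb p A B := by
  have hE : ∑ n ∈ Finset.range M, (U p A n - U p A (n+1)) * U p B (n+1)
      ≤ ((source p).prod (source p)).real {z | tau A z.1 < tau B z.2} := by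
    have h1 : ((source p).prod (source p)).real
        (⋃ n ∈ Finset.range M, (NA A n \ NA A (n+1)) ×ˢ (NA B (n+1))) =
        ∑ n ∈ Finset.range M, (U p A n - U p A (n+1)) * U p B (n+1) := by
      rw [measureReal_biUnion_finset]
      · refine Finset.sum_congr rfl fun n _ => ?_
        rw [measureReal_prod_prod, real_diff]
        rfl
      · exact pairwise_disj A (fun n => NA B (n+1)) _
      · intro n _
        exact ((measurableSet_NA A n).diff (measurableSet_NA A (n+1))).prod (measurableSet_NA B (n+1))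
    rw [← h1]
    refine measureReal_mono ?_
    intro z hz
    simp only [Set.mem_iUnion] at hz
    obtain ⟨n, _, hz1, hz2⟩ := hz
    rw [Set.mem_ofPred_eq, tau_eq_of_mem_diff A n hz1]
    exact (lt_tau_iff B z.2 (n+1)).2 hz2
  have hG : ∑ n ∈ Finset.range M, (U p A n - U p A (n+1)) * (U p B n - U p B (n+1))
      ≤ ((source p).prod (source p)).real {z | tau A z.1 = tau B z.2} := by
    have h1 : ((source p).prod (source p)).real
        (⋃ n ∈ Finset.range M, (NA A n \ NA A (n+1)) ×ˢ (NA B n \ NA B (n+1))) =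
        ∑ n ∈ Finset.range M, (U p A n - U p A (n+1)) * (U p B n - U p B (n+1)) := by
      rw [measureReal_biUnion_finset]
      · refine Finset.sum_congr rfl fun n _ => ?_
        rw [measureReal_prod_prod, real_diff, real_diff]
      · exact pairwise_disj A (fun n => NA B n \ NA B (n+1)) _
      · intro n _
        exact ((measurableSet_NA A n).diff (measurableSet_NA A (n+1))).prod
          ((measurableSet_NA B n).diff (measurableSet_NA B (n+1)))
    rw [← h1]
    refine measureReal_mono ?_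
    intro z hz
    simp only [Set.mem_iUnion] at hz
    obtain ⟨n, _, hz1, hz2⟩ := hz
    rw [Set.mem_ofPred_eq, tau_eq_of_mem_diff A n hz1, tau_eq_of_mem_diff B n hz2]
  unfold winProb
  calc _ = ∑ n ∈ Finset.range M, (U p A n - U p A (n+1)) * U p B (n+1)
        + (1/2) * ∑ n ∈ Finset.range M, (U p A n - U p A (n+1)) * (U p B n - U p B (n+1)) := by
        rw [Finset.mul_sum, ← Finset.sum_add_distrib]
        refine Finset.sum_congr rfl fun n _ => ?_
        ring
    _ ≤ _ := by gcongr

/-- The recursion satisfied by the survival sequence of a word `aba`. -/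
structure Surv (y w : ℝ) (u : ℕ → ℝ) : Prop where
  h0 : u 0 = 1
  h1 : u 1 = 1
  h2 : u 2 = 1
  hrec : ∀ n, u (n+3) = u (n+2) - y * u (n+1) + w * u n

theorem telescope {y w Y W : ℝ} {u v : ℕ → ℝ} (hu : Surv y w u) (hv : Surv Y W v) (M : ℕ) :
    DD y w Y W * ∑ n ∈ Finset.range M, (u (n+2) * v (n+3) - u (n+3) * v (n+2))
      = NN y w Y W - beta y w Y W (u (M+2)) (u (M+1)) (u M) (v (M+2)) (v (M+1)) (v M) := by
  induction M with
  | zero => 
    simp only [Finset.range_zero, Finset.sum_empty, mul_zero, zero_add, hu.h0, hu.h1, hu.h2,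
      hv.h0, hv.h1, hv.h2, beta_one, sub_self]
  | succ M ih =>
    rw [Finset.sum_range_succ, mul_add, ih]
    have e := beta_step y w Y W (u (M+2)) (u (M+1)) (u M) (v (M+2)) (v (M+1)) (v M)
    rw [← hu.hrec M, ← hv.hrec M] at e
    have e2 : M + 1 + 2 = M + 3 := by ring
    have e3 : M + 1 + 1 = M + 2 := by ring
    rw [e2, e3]
    linarith

theorem partial_sum {u v : ℕ → ℝ} (M : ℕ) (hu : u 0 = 1) (hv : v 0 = 1) :
    ∑ n ∈ Finset.range M, (1/2) * ((u n - u (n+1)) * (v n + v (n+1)))
      = 1/2 - (1/2) * (u M * v M) + (1/2) * ∑ n ∈ Finset.range M, (u n * v (n+1) - u (n+1) * v n) := by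
  induction M with
  | zero => simp [hu, hv]
  | succ M ih =>
    rw [Finset.sum_range_succ, ih, Finset.sum_range_succ]
    ring

theorem shift_sum {u v : ℕ → ℝ} (M : ℕ) (hu0 : u 0 = 1) (hu1 : u 1 = 1) (hu2 : u 2 = 1)
    (hv0 : v 0 = 1) (hv1 : v 1 = 1) (hv2 : v 2 = 1) :
    ∑ n ∈ Finset.range (M + 2), (u n * v (n+1) - u (n+1) * v n)
      = ∑ n ∈ Finset.range M, (u (n+2) * v (n+3) - u (n+3) * v (n+2)) := by
  induction M with
  | zero => simp [Finset.sum_range_succ, hu0, hu1, hu2, hv0, hv1, hv2]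
  | succ M ih =>
    rw [show M + 1 + 2 = (M + 2) + 1 by ring, Finset.sum_range_succ, ih,
      Finset.sum_range_succ (fun n => u (n+2) * v (n+3) - u (n+3) * v (n+2))]

theorem win_of_NN (p : PMF (Fin s)) (A B : Fin k → Fin s) {y w Y W : ℝ}
    (hA : Surv y w (U p A)) (hB : Surv Y W (U p B))
    (lA : Tendsto (U p A) atTop (𝓝 0)) (lB : Tendsto (U p B) atTop (𝓝 0))
    (hD : 0 < DD y w Y W) (hN : 0 < NN y w Y W) : 1/2 < winProb p A B := by
  set u := U p A with hu
  set v := U p B with hv
  have hlimb : Tendsto (fun M => beta y w Y W (u (M+2)) (u (M+1)) (u M) (v (M+2)) (v (M+1)) (v M))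
      atTop (𝓝 (beta y w Y W 0 0 0 0 0 0)) := by
    have a2 := (tendsto_add_atTop_iff_nat 2).2 lA
    have a1 := (tendsto_add_atTop_iff_nat 1).2 lA
    have b2 := (tendsto_add_atTop_iff_nat 2).2 lB
    have b1 := (tendsto_add_atTop_iff_nat 1).2 lB
    unfold beta
    exact (((a2.mul (((b2.const_mul _).add (b1.const_mul _)).add (lB.const_mul _))).add
      (a1.mul (((b2.const_mul _).add (b1.const_mul _)).add (lB.const_mul _)))).add
      (lA.mul (((b2.const_mul _).add (b1.const_mul _)).add (lB.const_mul _))))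
  have hb0 : beta y w Y W 0 0 0 0 0 0 = 0 := by unfold beta; ring
  rw [hb0] at hlimb
  -- limit of the partial sums
  have hlim : Tendsto (fun M => 1/2 - (1/2) * (u (M+2) * v (M+2)) +
      (1/2) * ((NN y w Y W - beta y w Y W (u (M+2)) (u (M+1)) (u M) (v (M+2)) (v (M+1)) (v M))
        / DD y w Y W)) atTop (𝓝 (1/2 - (1/2) * (0 * 0) + (1/2) * ((NN y w Y W - 0) / DD y w Y W))) := by
    have a2 := (tendsto_add_atTop_iff_nat 2).2 lA
    have b2 := (tendsto_add_atTop_iff_nat 2).2 lB
    exact (tendsto_const_nhds.sub ((a2.mul b2).const_mul _)).add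
      (((tendsto_const_nhds.sub hlimb).div_const _).const_mul _)
  have hpos : 1/2 < 1/2 - (1/2) * ((0:ℝ) * 0) + (1/2) * ((NN y w Y W - 0) / DD y w Y W) := by
    have : 0 < NN y w Y W / DD y w Y W := div_pos hN hD
    rw [sub_zero]; linarith
  obtain ⟨M, hM⟩ := (hlim.eventually (lt_mem_nhds hpos)).exists
  refine lt_of_lt_of_le hM ?_
  have hw := win_lower p A B (M + 2)
  rw [partial_sum (M+2) hA.h0 hB.h0,
    shift_sum M hA.h0 hA.h1 hA.h2 hB.h0 hB.h1 hB.h2] at hw
  have ht := telescope hA hB M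
  have : ∑ n ∈ Finset.range M, (u (n+2) * v (n+3) - u (n+3) * v (n+2)) =
      (NN y w Y W - beta y w Y W (u (M+2)) (u (M+1)) (u M) (v (M+2)) (v (M+1)) (v M))
        / DD y w Y W := by
    rw [eq_div_iff hD.ne', mul_comm]; exact ht
  rw [← this]
  exact hw

end H143PR
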